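import Mathlib

namespace Pool.Agent.Results.MP_0a00ee_co.InducedEightCycle

/-- `G` is chordal: it has no induced cycle of length at least four. -/
def IsChordal {V : Type} (G : SimpleGraph V) : Prop :=
  ∀ n : ℕ, 4 ≤ n → IsEmpty (SimpleGraph.cycleGraph n ↪g G)

/-- `K` is (the vertex set of) a maximal clique of `G`. -/
def IsMaxClique {V : Type} (G : SimpleGraph V) (K : Set V) : Prop :=
  G.IsClique K ∧ ∀ L : Set V, G.IsClique L → K ⊆ L → L = K

/-- `K` and `K'` meet, and every path from `K \ K'` to `K' \ K` meets `K ∩ K'`. -/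
def IsSeparatingPair {V : Type} (G : SimpleGraph V) (K K' : Set V) : Prop :=
  K ≠ K' ∧ (K ∩ K').Nonempty ∧
    ∀ a ∈ K \ K', ∀ b ∈ K' \ K, ∀ w : G.Walk a b, w.IsPath → ∃ c ∈ w.support, c ∈ K ∩ K'

theorem IsSeparatingPair.symm {V : Type} {G : SimpleGraph V} {K K' : Set V}
    (h : IsSeparatingPair G K K') : IsSeparatingPair G K' K := by
  obtain ⟨h1, h2, h3⟩ := h
  refine ⟨h1.symm, by rwa [Set.inter_comm], fun a ha b hb w hw => ?_⟩
  obtain ⟨c, hc, hc'⟩ := h3 b hb a ha w.reverse hw.reverse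
  refine ⟨c, by simpa using hc, by rwa [Set.inter_comm]⟩

/-- The reduced clique graph `C_R(G)`. -/
def reducedCliqueGraph {V : Type} (G : SimpleGraph V) :
    SimpleGraph {K : Set V // IsMaxClique G K} where
  Adj K K' := IsSeparatingPair G K.1 K'.1
  symm := ⟨fun _ _ h => h.symm⟩
  loopless := ⟨fun _ h => h.1 rfl⟩

/-- one direction of the adjacency relation: `0,1,2,3` a clique, `4+i` joined to `i,i+1`,
`8+i` joined to `i` -/
def rel (a b : Fin 12) : Bool :=
  (a.1 < 4 && b.1 < 4 && a.1 != b.1) ||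
  (4 ≤ a.1 && a.1 < 8 && b.1 < 4 && (b.1 == a.1 - 4 || b.1 == (a.1 - 3) % 4)) ||
  (8 ≤ a.1 && b.1 < 4 && b.1 == a.1 - 8)

def G12 : SimpleGraph (Fin 12) where
  Adj a b := rel a b = true ∨ rel b a = true
  symm := ⟨fun _ _ h => h.symm⟩
  loopless := ⟨fun a h => by revert a; decide⟩

instance : DecidableRel G12.Adj := fun a b => inferInstanceAs (Decidable (rel a b = true ∨ rel b a = true))

theorem core_clique : ∀ a b : Fin 12, a.1 < 4 → b.1 < 4 → a ≠ b → G12.Adj a b := by decide

theorem outer_simplicial : ∀ a b c : Fin 12, 4 ≤ a.1 → G12.Adj a b → G12.Adj a c → b ≠ c → G12.Adj b c := by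
  decide

theorem fin_one_add_one (m : ℕ) : ((1 : Fin (m + 4)) + 1).1 = 2 := by
  rw [Fin.val_add, Fin.val_one']
  simp [Nat.mod_eq_of_lt (show 1 < m + 4 by omega), Nat.mod_eq_of_lt (show 2 < m + 4 by omega)]

theorem fin_three (m : ℕ) : ((1 : Fin (m + 4)) + 1 + 1).1 = 3 := by
  rw [Fin.val_add, fin_one_add_one, Fin.val_one']
  simp [Nat.mod_eq_of_lt (show 1 < m + 4 by omega), Nat.mod_eq_of_lt (show 3 < m + 4 by omega)]

theorem chordal : IsChordal G12 := by
  intro n hn
  refine ⟨fun f => ?_⟩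
  obtain ⟨m, rfl⟩ : ∃ m, n = m + 4 := ⟨n - 4, by omega⟩
  have hnon : ∀ i : Fin (m + 4), i + 1 + 1 ≠ i ∧ ¬ (SimpleGraph.cycleGraph (m + 4)).Adj (i + 1 + 1) i := by
    intro i
    have e1 : i + 1 + 1 - i = 1 + 1 := by abel
    have e2 : (i - (i + 1 + 1)) + (1 + 1) = 0 := by abel
    constructor
    · intro h
      rw [h, sub_self] at e1
      have := congrArg Fin.val e1
      rw [fin_one_add_one] at this
      simp at this
    · intro h
      rw [SimpleGraph.cycleGraph_adj] at h
      rcases h with h | h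
      · rw [e1] at h
        have := congrArg Fin.val h
        rw [fin_one_add_one, Fin.val_one', Nat.mod_eq_of_lt (by omega)] at this
        omega
      · rw [h, ← add_assoc] at e2
        have := congrArg Fin.val e2
        rw [fin_three] at this
        simp at this
  have hcore : ∀ i : Fin (m + 4), (f (i + 1)).1 < 4 := by
    intro i
    by_contra hcon
    push Not at hcon
    have h1 : (SimpleGraph.cycleGraph (m + 4)).Adj (i + 1) (i + 1 + 1) := by
      rw [SimpleGraph.cycleGraph_adj]; right; simp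
    have h2 : (SimpleGraph.cycleGraph (m + 4)).Adj (i + 1) i := by
      rw [SimpleGraph.cycleGraph_adj]; left; simp
    refine (hnon i).2 ?_
    rw [← f.map_adj_iff]
    exact outer_simplicial _ _ _ hcon (f.map_adj_iff.2 h1) (f.map_adj_iff.2 h2) (fun h => (hnon i).1 (f.injective h))
  have h0 := hcore (-1)
  have h2 := hcore (0 + 1)
  rw [neg_add_cancel] at h0
  refine (hnon 0).2 ?_
  rw [← f.map_adj_iff]
  exact core_clique _ _ h2 h0 (fun h => (hnon 0).1 (f.injective h))

/-- the eight cliques, in cyclic order -/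
def clq (i : Fin 8) : Finset (Fin 12) :=
  match i with
  | 0 => {0, 8}
  | 1 => {0, 1, 4}
  | 2 => {1, 9}
  | 3 => {1, 2, 5}
  | 4 => {2, 10}
  | 5 => {2, 3, 6}
  | 6 => {3, 11}
  | 7 => {3, 0, 7}

theorem clq_clique : ∀ i : Fin 8, ∀ a ∈ clq i, ∀ b ∈ clq i, a ≠ b → G12.Adj a b := by decide

theorem clq_max : ∀ i : Fin 8, ∀ b, (∀ a ∈ clq i, a ≠ b → G12.Adj a b) → b ∈ clq i := by decide

theorem clq_isMax (i : Fin 8) : IsMaxClique G12 (clq i : Set (Fin 12)) := by
  refine ⟨fun a ha b hb hab => clq_clique i a ha b hb hab, fun L hL hsub => ?_⟩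
  refine Set.Subset.antisymm (fun b hb => ?_) hsub
  exact clq_max i b (fun a ha hab => hL (hsub ha) hb hab)

theorem clq_inj : ∀ i j : Fin 8, clq i = clq j → i = j := by decide

/-- in adjacent cliques, the pendant clique has a unique vertex outside, whose only neighbour is
in the intersection -/
theorem clq_sep : ∀ i j : Fin 8, i.1 % 2 = 0 → (SimpleGraph.cycleGraph 8).Adj i j →
    (clq i ∩ clq j).Nonempty ∧ ∀ a ∈ clq i, a ∉ clq j → ∀ b, G12.Adj a b → b ∈ clq i ∩ clq j := by
  decide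

theorem clq_par : ∀ i j : Fin 8, (SimpleGraph.cycleGraph 8).Adj i j → i.1 % 2 = 0 ∨ j.1 % 2 = 0 := by
  decide

theorem clq_nonsep : ∀ i j : Fin 8, i ≠ j → ¬ (SimpleGraph.cycleGraph 8).Adj i j →
    ¬ (clq i ∩ clq j).Nonempty ∨ ∃ a ∈ clq i, a ∉ clq j ∧ ∃ b ∈ clq j, b ∉ clq i ∧ G12.Adj a b := by
  decide

theorem sep_of_adj (i j : Fin 8) (hi : i.1 % 2 = 0) (h : (SimpleGraph.cycleGraph 8).Adj i j) :
    IsSeparatingPair G12 (clq i : Set (Fin 12)) (clq j) := by
  obtain ⟨h1, h2⟩ := clq_sep i j hi h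
  refine ⟨fun heq => h.ne (clq_inj i j (by exact_mod_cast heq)), by exact_mod_cast h1, ?_⟩
  rintro a ⟨ha, ha'⟩ b ⟨hb, hb'⟩ w -
  cases w with
  | nil => exact absurd ha hb'
  | cons hadj p =>
    rename_i c
    refine ⟨c, by simp, ?_⟩
    have := h2 a ha ha' c hadj
    exact_mod_cast this

theorem adj_iff (i j : Fin 8) : IsSeparatingPair G12 (clq i : Set (Fin 12)) (clq j) ↔
    (SimpleGraph.cycleGraph 8).Adj i j := by
  constructor
  · intro h
    by_contra hcon
    have hij : i ≠ j := by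
      rintro rfl
      exact h.1 rfl
    rcases clq_nonsep i j hij hcon with h1 | ⟨a, ha, ha', b, hb, hb', hab⟩
    · exact h1 (by exact_mod_cast h.2.1)
    · obtain ⟨c, hc, hc'⟩ := h.2.2 a ⟨ha, ha'⟩ b ⟨hb, hb'⟩ (SimpleGraph.Walk.cons hab SimpleGraph.Walk.nil)
        (by simp [hab.ne])
      simp at hc
      rcases hc with rfl | rfl
      · exact ha' hc'.2
      · exact hb' hc'.1
  · intro h
    rcases clq_par i j h with hi | hj
    · exact sep_of_adj i j hi h
    · exact (sep_of_adj j i hj h.symm).symm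

/-- There is a chordal graph whose reduced clique graph contains an induced cycle with eight
vertices. -/
theorem result : ∃ G : SimpleGraph (Fin 12), IsChordal G ∧
    Nonempty (SimpleGraph.cycleGraph 8 ↪g reducedCliqueGraph G) := by
  refine ⟨G12, chordal, ⟨⟨⟨fun i => ⟨(clq i : Set (Fin 12)), clq_isMax i⟩, ?_⟩, ?_⟩⟩⟩
  · intro i j h
    simp only [Subtype.mk.injEq] at h
    exact clq_inj i j (by exact_mod_cast h)
  · intro i j
    exact adj_iff i j

end Pool.Agent.Results.MP_0a00ee_co.InducedEightCycle
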